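import Mathlib

set_option autoImplicit false

open Topology Filter Set

namespace Pool.Helper535.HN

universe u

/-- Every sequence of points of `S` has a cluster point in `S`
(for T1 spaces: `S` is countably compact). -/
def CC {X : Type*} [TopologicalSpace X] (S : Set X) : Prop :=
  ∀ u : ℕ → X, (∀ n, u n ∈ S) → ∃ x ∈ S, MapClusterPt x atTop u

/-- Every countably compact subset is closed. -/
def CClosed (X : Type*) [TopologicalSpace X] : Prop :=
  ∀ S : Set X, CC S → IsClosed S

/-- A centred family of closed sets: finite subfamilies have nonempty intersection. -/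
def Centred {Y : Type*} [TopologicalSpace Y] (F : Set (Set Y)) : Prop :=
  (∀ C ∈ F, IsClosed C) ∧
    ∀ G : Finset (Set Y), (↑G : Set (Set Y)) ⊆ F → (⋂₀ (↑G : Set (Set Y))).Nonempty

/-- A maximal centred family of closed sets (a closed ultrafilter). -/
def ClUlt {Y : Type*} [TopologicalSpace Y] (F : Set (Set Y)) : Prop :=
  Centred F ∧ ∀ H : Set (Set Y), F ⊆ H → Centred H → H = F

/-- `B` contains a member of `F`. -/
def Big {Y : Type*} (F : Set (Set Y)) (B : Set Y) : Prop := ∃ C ∈ F, C ⊆ B

end Pool.Helper535.HN
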