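import Pool.Agent.Helper535.HN.Main

set_option autoImplicit false

open Topology Filter Set

universe u

namespace Pool.Helper535.HN

/-- every nonempty closed subset `K` has a point `p` which is a relative `G_δ` point of `K`. -/
def GdPoints (X : Type u) [TopologicalSpace X] : Prop :=
  ∀ K : Set X, IsClosed K → K.Nonempty →
    ∃ p ∈ K, ∃ U : ℕ → Set X, (∀ n, IsOpen (U n)) ∧ K ∩ ⋂ n, U n = {p}

theorem subseqGd {X : Type u} [TopologicalSpace X] [CompactSpace X] [T2Space X]
    (hG : GdPoints X) (a : ℕ → X) :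
    ∃ p, MapClusterPt p atTop a ∧ ∃ φ : ℕ → ℕ, StrictMono φ ∧
      Tendsto (a ∘ φ) atTop (𝓝 p) := by
  have hLc : IsClosed {x | MapClusterPt x atTop a} := isClosed_setOf_clusterPt
  have hLne : {x | MapClusterPt x atTop a}.Nonempty := by
    obtain ⟨x, hx⟩ := exists_clusterPt_of_compactSpace (map a atTop)
    exact ⟨x, hx⟩
  obtain ⟨p, hp, U, hUo, hU⟩ := hG _ hLc hLne
  have hpU : ∀ n, p ∈ U n := by
    intro n
    have : p ∈ {x | MapClusterPt x atTop a} ∩ ⋂ n, U n := by rw [hU]; rfl
    exact mem_iInter.1 this.2 n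
  have hV : ∀ n, ∃ V : Set X, IsOpen V ∧ p ∈ V ∧ closure V ⊆ U n := by
    intro n
    obtain ⟨V, hV1, hV2, hV3⟩ := exists_mem_nhds_isClosed_subset ((hUo n).mem_nhds (hpU n))
    refine ⟨interior V, isOpen_interior, mem_interior_iff_mem_nhds.2 hV1, ?_⟩
    exact (closure_minimal interior_subset hV2).trans hV3
  choose V hVo hVp hVU using hV
  -- decreasing neighbourhoods
  have hfreq : ∀ n, ∃ᶠ m in atTop, a m ∈ ⋂ i ∈ Finset.range (n + 1), V i := by
    intro n
    have hmem : (⋂ i ∈ Finset.range (n + 1), V i) ∈ 𝓝 p :=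
      (Filter.biInter_finset_mem _).2 fun i _ => (hVo i).mem_nhds (hVp i)
    exact (mapClusterPt_iff_frequently.1 hp) _ hmem
  obtain ⟨φ, hφ, hφV⟩ := extraction_forall_of_frequently hfreq
  refine ⟨p, hp, φ, hφ, ?_⟩
  refine isCompact_univ.tendsto_nhds_of_unique_mapClusterPt (Eventually.of_forall fun _ => mem_univ _) ?_
  intro y _ hy
  have hyL : y ∈ {x | MapClusterPt x atTop a} := by
    have : MapClusterPt y atTop (a ∘ φ) := hy
    exact this.of_comp hφ.tendsto_atTop
  have hyU : ∀ n, y ∈ U n := by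
    intro n
    apply hVU n
    rw [mem_closure_iff_clusterPt]
    have h1 : ClusterPt y (map (a ∘ φ) atTop) := hy
    refine h1.mono ?_
    rw [Filter.le_principal_iff]
    refine mem_map.2 ?_
    filter_upwards [eventually_ge_atTop n] with m hm
    have := hφV m
    simp only [Finset.mem_range, mem_iInter] at this
    exact this n (by omega)
  have : y ∈ {x | MapClusterPt x atTop a} ∩ ⋂ n, U n := ⟨hyL, mem_iInter.2 hyU⟩
  rw [hU] at this
  exact this

theorem seqGd {X : Type u} [TopologicalSpace X] [CompactSpace X] [T2Space X]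
    (hC : CClosed X) (hG : GdPoints X) : SequentialSpace X := by
  refine ⟨fun A hA => hC A ?_⟩
  intro a ha
  obtain ⟨p, hp, φ, hφ, hlim⟩ := subseqGd hG a
  exact ⟨p, hA (fun n => ha (φ n)) hlim, hp⟩

end Pool.Helper535.HN
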