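import Pool.Agent.Helper535.HN.Defs

set_option autoImplicit false

open Topology Filter Set

namespace Pool.Helper535.HN

universe u



theorem ccSub {X : Type u} [TopologicalSpace X] (S : Set X) (hS : CC S) :
    CC (univ : Set S) := by
  intro u _
  obtain ⟨x, hx, hc⟩ := hS (fun n => (u n : X)) (fun n => (u n).2)
  refine ⟨⟨x, hx⟩, mem_univ _, ?_⟩
  rw [mapClusterPt_iff_frequently] at hc ⊢
  intro s hs
  obtain ⟨t, ht, hts⟩ := mem_nhds_subtype S ⟨x, hx⟩ s |>.1 hs
  refine (hc t ht).mono fun n hn => hts hn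

end Pool.Helper535.HN
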