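import Pool.Agent.Helper535.HN.Defs

set_option autoImplicit false

open Topology Filter Set

namespace Pool.Helper535.HN

universe u



theorem memOfMeets {Y : Type u} [TopologicalSpace Y] (F : Set (Set Y)) (hF : ClUlt F)
    (C : Set Y) (hC : IsClosed C)
    (hm : ∀ G : Finset (Set Y), (↑G : Set (Set Y)) ⊆ F →
      (C ∩ ⋂₀ (↑G : Set (Set Y))).Nonempty) : C ∈ F := by
  classical
  have hcen : Centred (insert C F) := by
    refine ⟨?_, ?_⟩
    · intro D hD
      rcases hD with rfl | hD
      · exact hC
      · exact hF.1.1 D hD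
    · intro G hG
      have hsub : (↑(G.erase C) : Set (Set Y)) ⊆ F := by
        intro D hD
        rw [Finset.mem_coe, Finset.mem_erase] at hD
        rcases hG (Finset.mem_coe.mpr hD.2) with h | h
        · exact absurd h hD.1
        · exact h
      obtain ⟨y, hy1, hy2⟩ := hm (G.erase C) hsub
      refine ⟨y, ?_⟩
      intro D hD
      by_cases hDC : D = C
      · rw [hDC]; exact hy1
      · exact hy2 D (Finset.mem_coe.mpr (Finset.mem_erase.mpr ⟨hDC, Finset.mem_coe.mp hD⟩))
  have h := hF.2 (insert C F) (Set.subset_insert C F) hcen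
  rw [← h]
  exact Set.mem_insert C F

end Pool.Helper535.HN
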