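import Pool.Agent.Helper535.HN.Defs
import Pool.Agent.Helper535.HN.P_memOfMeets

set_option autoImplicit false

open Topology Filter Set

namespace Pool.Helper535.HN

universe u



theorem countInter {Y : Type u} [TopologicalSpace Y] (hY : CC (univ : Set Y))
    (F : Set (Set Y)) (hF : ClUlt F) (G : ℕ → Set Y) (hG : ∀ n, G n ∈ F) :
    (⋂ n, G n) ∈ F := by
  classical
  apply memOfMeets F hF (⋂ n, G n) (isClosed_iInter fun n => hF.1.1 (G n) (hG n))
  intro G' hG'
  have hne : ∀ n : ℕ, ((⋂ i ∈ Finset.range (n + 1), G i) ∩ ⋂₀ (↑G' : Set (Set Y))).Nonempty := by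
    intro n
    obtain ⟨x, hx⟩ := hF.1.2 ((Finset.range (n + 1)).image G ∪ G') (by
      intro C hC
      rw [Finset.coe_union, Finset.coe_image] at hC
      rcases hC with ⟨i, -, rfl⟩ | hC
      · exact hG i
      · exact hG' hC)
    refine ⟨x, ?_, ?_⟩
    · rw [mem_iInter₂]
      intro i hi
      apply hx
      rw [Finset.coe_union, Finset.coe_image]
      exact Or.inl ⟨i, hi, rfl⟩
    · intro C hC
      apply hx
      rw [Finset.coe_union]
      exact Or.inr hC
  choose u hu using hne
  obtain ⟨x, -, hx⟩ := hY u (fun n => mem_univ _)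
  rw [mapClusterPt_iff_frequently] at hx
  have key : ∀ C : Set Y, IsClosed C → (∀ᶠ m in atTop, u m ∈ C) → x ∈ C := by
    intro C hC hev
    by_contra hxC
    have h1 := hx Cᶜ (hC.isOpen_compl.mem_nhds hxC)
    obtain ⟨m, hm1, hm2⟩ := (h1.and_eventually hev).exists
    exact hm1 hm2
  refine ⟨x, ?_, ?_⟩
  · rw [mem_iInter]
    intro n
    apply key (G n) (hF.1.1 (G n) (hG n))
    filter_upwards [eventually_ge_atTop n] with m hm
    have h2 := (hu m).1
    rw [mem_iInter₂] at h2
    exact h2 n (Finset.mem_range.2 (by omega))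
  · intro C hC
    apply key C (hF.1.1 C (hG' hC))
    exact Filter.Eventually.of_forall fun m => (hu m).2 C hC

end Pool.Helper535.HN
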