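import Pool.Agent.Helper535.HN.Defs

set_option autoImplicit false

open Topology Filter Set

namespace Pool.Helper535.HN

universe u



theorem exUlt_start {Y : Type u} [TopologicalSpace Y] (hY : ¬ IsCompact (univ : Set Y)) :
    ∃ F : Set (Set Y), Centred F ∧ ⋂₀ F = ∅ := by
  classical
  by_contra hcon
  apply hY
  apply isCompact_of_finite_subfamily_closed
  intro ι t hcl hemp
  by_contra hno
  push Not at hno
  apply hcon
  refine ⟨range t, ⟨?_, ?_⟩, ?_⟩
  · rintro _ ⟨i, rfl⟩
    exact hcl i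
  · intro G hG
    rw [← image_univ, Finset.subset_set_image_iff] at hG
    obtain ⟨s, _, rfl⟩ := hG
    obtain ⟨y, hy⟩ := nonempty_iff_ne_empty.2 (nonempty_iff_ne_empty.1 (hno s))
    refine ⟨y, ?_⟩
    rintro _ hC
    rw [Finset.coe_image] at hC
    obtain ⟨i, hi, rfl⟩ := hC
    exact mem_iInter₂.1 hy.2 i hi
  · rw [sInter_range]
    rw [univ_inter] at hemp
    exact hemp

theorem exUlt {Y : Type u} [TopologicalSpace Y] (hY : ¬ IsCompact (univ : Set Y)) :
    ∃ F : Set (Set Y), ClUlt F ∧ ⋂₀ F = ∅ := by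
  classical
  obtain ⟨F0, hF0, hemp⟩ := exUlt_start hY
  obtain ⟨F, hF0F, hmax⟩ := zorn_subset_nonempty {F : Set (Set Y) | Centred F} (by
    intro c hc hchain hne
    refine ⟨⋃₀ c, ⟨?_, ?_⟩, fun s hs => subset_sUnion_of_mem hs⟩
    · rintro C ⟨F, hF, hCF⟩
      exact (hc hF).1 C hCF
    · have key : ∀ G : Finset (Set Y), (↑G : Set (Set Y)) ⊆ ⋃₀ c →
          ∃ F ∈ c, (↑G : Set (Set Y)) ⊆ F := by
        intro G
        induction G using Finset.induction_on with
        | empty =>
          intro _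
          obtain ⟨F, hF⟩ := hne
          exact ⟨F, hF, by simp⟩
        | insert a G ha ih =>
          intro hG
          rw [Finset.coe_insert, insert_subset_iff] at hG
          obtain ⟨F1, hF1, hGF1⟩ := ih hG.2
          obtain ⟨F2, hF2, haF2⟩ := hG.1
          rcases hchain.total hF1 hF2 with h | h
          · refine ⟨F2, hF2, ?_⟩
            rw [Finset.coe_insert, insert_subset_iff]
            exact ⟨haF2, hGF1.trans h⟩
          · refine ⟨F1, hF1, ?_⟩
            rw [Finset.coe_insert, insert_subset_iff]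
            exact ⟨h haF2, hGF1⟩
      intro G hG
      obtain ⟨F, hF, hGF⟩ := key G hG
      exact (hc hF).2 G hGF) F0 hF0
  refine ⟨F, ⟨hmax.1, fun H hFH hH => ?_⟩, ?_⟩
  · exact Subset.antisymm (hmax.2 hH hFH) hFH
  · rw [← subset_empty_iff, ← hemp]
    exact sInter_subset_sInter hF0F

end Pool.Helper535.HN
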