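import Pool.Agent.Helper535.HN.Defs

set_option autoImplicit false

open Topology Filter Set

namespace Pool.Helper535.HN

universe u



theorem finSeq {X : Type u} [TopologicalSpace X] [CompactSpace X] [T2Space X]
    (a : ℕ → X) (hfin : {x | MapClusterPt x atTop a}.Finite) :
    ∃ p, MapClusterPt p atTop a ∧ ∃ φ : ℕ → ℕ, StrictMono φ ∧
      Tendsto (a ∘ φ) atTop (𝓝 p) := by
  obtain ⟨p, hp⟩ := exists_clusterPt_of_compactSpace (map a atTop)
  have hp' : MapClusterPt p atTop a := hp
  refine ⟨p, hp', ?_⟩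
  have hO : IsClosed ({x | MapClusterPt x atTop a} \ {p}) := (hfin.subset diff_subset).isClosed
  have hpO : ({x | MapClusterPt x atTop a} \ {p})ᶜ ∈ 𝓝 p := by
    apply hO.isOpen_compl.mem_nhds
    simp
  obtain ⟨W, hWn, hWc, hWsub⟩ := exists_mem_nhds_isClosed_subset hpO
  have hfreq : ∃ᶠ n in atTop, a n ∈ W := mapClusterPt_iff_frequently.mp hp' W hWn
  obtain ⟨φ, hφ, hφW⟩ := extraction_of_frequently_atTop hfreq
  refine ⟨φ, hφ, tendsto_nhds_of_unique_mapClusterPt ?_⟩
  intro x hx
  have hxW : x ∈ W := by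
    have : x ∈ closure W := by
      rw [mem_closure_iff_clusterPt]
      apply ClusterPt.mono hx
      rw [le_principal_iff]
      exact mem_map.mpr (Filter.Eventually.of_forall hφW)
    rwa [hWc.closure_eq] at this
  have hxa : MapClusterPt x atTop a := by
    have : map (a ∘ φ) atTop ≤ map a atTop := by
      rw [← Filter.map_map]
      exact map_mono hφ.tendsto_atTop
    exact ClusterPt.mono hx this
  by_contra hne
  exact hWsub hxW ⟨hxa, hne⟩

end Pool.Helper535.HN
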