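import Pool.Agent.Helper535.HN.Defs

set_option autoImplicit false

open Topology Filter Set

namespace Pool.Helper535.HN

universe u



theorem infSeq {X : Type u} [TopologicalSpace X] [CompactSpace X] [T2Space X]
    (hC : CClosed X) (L : Set X) (hL : IsClosed L) (hinf : L.Infinite) :
    ∃ p ∈ L, ∃ v : ℕ → X, (∀ n, v n ∈ L) ∧ (∀ n, v n ∈ ({p}ᶜ : Set X)) ∧
      Tendsto v atTop (𝓝 p) := by
  have hLc : IsCompact L := hL.isCompact
  obtain ⟨p, hpL, hacc⟩ := hinf.exists_accPt_of_subset_isCompact hLc (Subset.refl L)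
  have hnc : ¬ IsClosed (L \ {p}) := by
    intro hcl
    have hmem : p ∈ closure (L \ {p}) := by
      rw [mem_closure_iff_clusterPt]
      rw [accPt_principal_iff_clusterPt] at hacc
      exact hacc
    rw [hcl.closure_eq] at hmem
    exact hmem.2 rfl
  have hnCC : ¬ CC (L \ {p}) := fun h => hnc (hC _ h)
  unfold CC at hnCC
  push Not at hnCC
  obtain ⟨v, hv, hv2⟩ := hnCC
  refine ⟨p, hpL, v, fun n => (hv n).1, fun n => (hv n).2, ?_⟩
  refine hLc.tendsto_nhds_of_unique_mapClusterPt (Eventually.of_forall fun n => (hv n).1) ?_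
  intro x hx hcx
  by_contra hne
  exact hv2 x ⟨hx, hne⟩ hcx

end Pool.Helper535.HN
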