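import Pool.Agent.Helper535.HN.Defs

set_option autoImplicit false

open Topology Filter Set

namespace Pool.Helper535.HN

universe u



theorem ncSub {X : Type u} [TopologicalSpace X] [T2Space X] (S : Set X)
    (hS : ¬ IsClosed S) : ¬ IsCompact (univ : Set S) := by
  intro h
  exact hS (isCompact_iff_isCompact_univ.2 h).isClosed

end Pool.Helper535.HN
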