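import Pool.Agent.Helper535.HN.Defs

set_option autoImplicit false

open Topology Filter Set

namespace Pool.Helper535.HN

universe u



theorem nonemp {Y : Type u} [TopologicalSpace Y] (F : Set (Set Y)) (hF : ClUlt F)
    (C : Set Y) (hC : C ∈ F) : C.Nonempty := by
  have h := hF.1.2 {C} (by simpa using hC)
  simpa using h

end Pool.Helper535.HN
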