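import Pool.Agent.Helper535.HN.Defs
import Pool.Agent.Helper535.HN.P_countInter

set_option autoImplicit false

open Topology Filter Set

namespace Pool.Helper535.HN

universe u



theorem bigCountUnion {Y : Type u} [TopologicalSpace Y] (hY : CC (univ : Set Y))
    (F : Set (Set Y)) (hF : ClUlt F) (B : ℕ → Set Y) (hB : ∀ n, Big F (B n)ᶜ) :
    Big F (⋃ n, B n)ᶜ := by
  choose C hC hCB using hB
  refine ⟨⋂ n, C n, countInter hY F hF C hC, ?_⟩
  intro x hx
  simp only [mem_compl_iff, mem_iUnion, not_exists]
  intro n hn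
  exact hCB n (mem_iInter.mp hx n) hn

end Pool.Helper535.HN
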