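import Pool.Agent.Helper535.HN.Defs
import Pool.Agent.Helper535.HN.P_memOfMeets

set_option autoImplicit false

open Topology Filter Set

namespace Pool.Helper535.HN

universe u



theorem dichot {Y : Type u} [TopologicalSpace Y] (F : Set (Set Y)) (hF : ClUlt F)
    (C : Set Y) (hC : IsClosed C) : Big F C ∨ Big F Cᶜ := by
  classical
  by_cases hCF : C ∈ F
  · exact Or.inl ⟨C, hCF, subset_rfl⟩
  · right
    by_contra hno
    apply hCF
    apply memOfMeets F hF C hC
    intro G hG
    by_contra hemp
    rw [Set.not_nonempty_iff_eq_empty] at hemp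
    apply hno
    refine ⟨⋂₀ (↑G : Set (Set Y)), ?_, ?_⟩
    · apply memOfMeets F hF
      · exact isClosed_sInter fun D hD => hF.1.1 D (hG hD)
      · intro G' hG'
        have h := hF.1.2 (G ∪ G') (by
          rw [Finset.coe_union]
          exact Set.union_subset hG hG')
        rw [Finset.coe_union, Set.sInter_union] at h
        exact h
    · intro x hx hxC
      have : x ∈ C ∩ ⋂₀ (↑G : Set (Set Y)) := ⟨hxC, hx⟩
      rw [hemp] at this
      exact this

end Pool.Helper535.HN
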