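import Pool.Agent.Helper535.HN.Defs
import Pool.Agent.Helper535.HN.P_nonemp
import Pool.Agent.Helper535.HN.P_dichot
import Pool.Agent.Helper535.HN.P_bigCountUnion

set_option autoImplicit false

open Topology Filter Set

namespace Pool.Helper535.HN

universe u



theorem bigBorel {Y : Type u} [TopologicalSpace Y] (hY : CC (univ : Set Y))
    (F : Set (Set Y)) (hF : ClUlt F) (B : Set Y)
    (hB : @MeasurableSet Y (borel Y) B) : Big F B ∨ Big F Bᶜ := by
  have hB' : MeasurableSpace.GenerateMeasurable {s : Set Y | IsOpen s} B := hB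
  induction hB' with
  | basic s hs =>
    have hs' : IsOpen s := hs
    rcases dichot F hF sᶜ hs'.isClosed_compl with h | h
    · exact Or.inr h
    · rw [compl_compl] at h
      exact Or.inl h
  | empty => exact dichot F hF ∅ isClosed_empty
  | compl s hs ih =>
    rw [compl_compl]
    exact (ih hs).symm
  | iUnion f hf ih =>
    by_cases h : ∃ n, Big F (f n)
    · obtain ⟨n, C, hC, hCs⟩ := h
      exact Or.inl ⟨C, hC, hCs.trans (subset_iUnion f n)⟩
    · refine Or.inr (bigCountUnion hY F hF f (fun n => ?_))
      exact (ih n (hf n)).resolve_left (fun hn => h ⟨n, hn⟩)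

end Pool.Helper535.HN
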