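import Pool.Agent.Helper535.HN.Defs

set_option autoImplicit false

open Topology Filter Set

namespace Pool.Helper535.HN

universe u



theorem notBoth {Y : Type u} [TopologicalSpace Y]
    (F : Set (Set Y)) (hF : ClUlt F) (B D : Set Y) (hB : Big F B) (hD : Big F D) :
    (B ∩ D).Nonempty := by
  classical
  obtain ⟨C1, hC1, h1⟩ := hB
  obtain ⟨C2, hC2, h2⟩ := hD
  obtain ⟨x, hx⟩ := hF.1.2 {C1, C2} (by
    intro C hC
    simp only [Finset.coe_insert, Finset.coe_singleton, Set.mem_insert_iff,
      Set.mem_singleton_iff] at hC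
    rcases hC with rfl | rfl
    · exact hC1
    · exact hC2)
  exact ⟨x, h1 (hx C1 (by simp)), h2 (hx C2 (by simp))⟩

end Pool.Helper535.HN
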