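import Pool.Agent.Helper535.HN.Defs
import Pool.Agent.Helper535.HN.P_nonemp
import Pool.Agent.Helper535.HN.P_bigCountUnion
import Pool.Agent.Helper535.HN.P_bigBorel
import Pool.Agent.Helper535.HN.P_notBoth

set_option autoImplicit false

open Topology Filter Set

namespace Pool.Helper535.HN

universe u



theorem exMeas {X : Type u} [TopologicalSpace X] [MeasurableSpace X] [BorelSpace X]
    (S : Set X) (hS : CC (univ : Set S)) (F : Set (Set S)) (hF : ClUlt F) :
    ∃ μ : MeasureTheory.Measure X, (∀ B : Set X, MeasurableSet B →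
      (Big F ((↑) ⁻¹' B : Set S) → μ B = 1) ∧
      (¬ Big F ((↑) ⁻¹' B : Set S) → μ B = 0)) := by
  classical
  let m : ∀ B : Set X, MeasurableSet B → ENNReal :=
    fun B _ => if Big F ((↑) ⁻¹' B : Set S) then 1 else 0
  have hpre : ∀ B : Set X, MeasurableSet B → @MeasurableSet S (borel S) ((↑) ⁻¹' B) := by
    intro B hB
    have hm : @Measurable S X (borel S) _ (Subtype.val) := by
      letI : MeasurableSpace S := borel S
      haveI : BorelSpace S := ⟨rfl⟩
      exact continuous_subtype_val.measurable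
    exact hm hB
  have m0 : m ∅ MeasurableSet.empty = 0 := by
    have h0 : ¬ Big F ((↑) ⁻¹' (∅ : Set X) : Set S) := by
      rintro ⟨C, hC, hCs⟩
      obtain ⟨x, hx⟩ := nonemp F hF C hC
      exact (hCs hx)
    simp only [m]
    rw [if_neg h0]
  have mU : ∀ ⦃f : ℕ → Set X⦄ (h : ∀ i, MeasurableSet (f i)),
      Pairwise (Function.onFun Disjoint f) →
      m (⋃ i, f i) (MeasurableSet.iUnion h) = ∑' i, m (f i) (h i) := by
    intro f h hd
    by_cases hb : ∃ i, Big F ((↑) ⁻¹' (f i) : Set S)
    · obtain ⟨i, hi⟩ := hb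
      have hU : Big F ((↑) ⁻¹' (⋃ i, f i) : Set S) := by
        obtain ⟨C, hC, hCs⟩ := hi
        exact ⟨C, hC, hCs.trans (preimage_mono (subset_iUnion f i))⟩
      have hj : ∀ j, j ≠ i → ¬ Big F ((↑) ⁻¹' (f j) : Set S) := by
        intro j hj hbj
        obtain ⟨x, hx⟩ := notBoth F hF _ _ hi hbj
        exact (Set.disjoint_left.mp (hd hj.symm)) hx.1 hx.2
      rw [tsum_eq_single i (fun j hji => by simp only [m]; rw [if_neg (hj j hji)])]
      simp only [m]
      rw [if_pos hU, if_pos hi]
    · have hb' : ∀ i, ¬ Big F ((↑) ⁻¹' (f i) : Set S) := fun i hi => hb ⟨i, hi⟩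
      have hU : ¬ Big F ((↑) ⁻¹' (⋃ i, f i) : Set S) := by
        intro hU
        have hc := bigCountUnion hS F hF (fun n => ((↑) ⁻¹' (f n) : Set S))
          (fun n => ((bigBorel hS F hF _ (hpre _ (h n))).resolve_left (hb' n)))
        obtain ⟨x, hx⟩ := notBoth F hF _ _ hU hc
        apply hx.2
        rw [← preimage_iUnion]
        exact hx.1
      have hz : ∀ i, m (f i) (h i) = 0 := by
        intro i
        simp only [m]
        rw [if_neg (hb' i)]
      rw [ENNReal.tsum_eq_zero.mpr hz]
      simp only [m]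
      rw [if_neg hU]
  refine ⟨MeasureTheory.Measure.ofMeasurable m m0 mU, ?_⟩
  intro B hB
  rw [MeasureTheory.Measure.ofMeasurable_apply B hB]
  constructor
  · intro h
    simp only [m]
    rw [if_pos h]
  · intro h
    simp only [m]
    rw [if_neg h]

end Pool.Helper535.HN
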