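import Pool.Agent.Helper535.HN.Defs
import Pool.Agent.Helper535.HN.P_exUlt
import Pool.Agent.Helper535.HN.P_notBoth
import Pool.Agent.Helper535.HN.P_ccSub
import Pool.Agent.Helper535.HN.P_ncSub
import Pool.Agent.Helper535.HN.P_exMeas

set_option autoImplicit false

open Topology Filter Set

namespace Pool.Helper535.HN

universe u



theorem radonC {X : Type u} [TopologicalSpace X] [CompactSpace X] [T2Space X]
    [MeasurableSpace X] [BorelSpace X]
    (hR : ∀ μ : MeasureTheory.Measure X, MeasureTheory.IsFiniteMeasure μ → μ.InnerRegular) :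
    CClosed X := by
  intro S hS
  by_contra hc
  have hcc := ccSub S hS
  have hnc := ncSub S hc
  obtain ⟨F, hF, hF0⟩ := exUlt hnc
  obtain ⟨μ, hμ⟩ := exMeas S hcc F hF
  have hFne : F.Nonempty := by
    by_contra hne
    rw [Set.not_nonempty_iff_eq_empty] at hne
    rw [hne, Set.sInter_empty] at hF0
    apply hnc
    rw [hF0]
    exact isCompact_empty
  obtain ⟨C0, hC0⟩ := hFne
  have huniv : μ univ = 1 := (hμ univ MeasurableSet.univ).1 ⟨C0, hC0, fun x _ => trivial⟩
  have hfin : MeasureTheory.IsFiniteMeasure μ := ⟨by rw [huniv]; exact ENNReal.one_lt_top⟩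
  have hir := hR μ hfin
  let N : Set X := ⋃₀ {U | IsOpen U ∧ μ U = 0}
  have hNo : IsOpen N := isOpen_sUnion (fun U hU => hU.1)
  have hSN : ∀ x ∈ S, x ∈ N := by
    intro x hx
    have hxn : (⟨x, hx⟩ : S) ∉ ⋂₀ F := by rw [hF0]; exact Set.notMem_empty _
    rw [Set.mem_sInter] at hxn
    push Not at hxn
    obtain ⟨C, hC, hxC⟩ := hxn
    obtain ⟨t, ht, htC⟩ := isClosed_induced_iff.1 (hF.1.1 C hC)
    have hxt : x ∈ tᶜ := by
      intro hxt
      apply hxC
      rw [← htC]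
      exact hxt
    refine Set.mem_sUnion.2 ⟨tᶜ, ⟨ht.isOpen_compl, ?_⟩, hxt⟩
    apply (hμ tᶜ ht.isOpen_compl.measurableSet).2
    intro hbig
    have hC' : Big F C := ⟨C, hC, subset_rfl⟩
    obtain ⟨y, hy1, hy2⟩ := notBoth F hF _ _ hC' hbig
    rw [← htC] at hy1
    exact hy2 hy1
  have hN1 : μ N = 1 := by
    apply (hμ N hNo.measurableSet).1
    exact ⟨C0, hC0, fun x _ => hSN x.1 x.2⟩
  obtain ⟨K, hKN, hK, hμK⟩ := hNo.measurableSet.exists_lt_isCompact (μ := μ) (r := 0)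
    (by rw [hN1]; exact one_pos)
  have : μ K = 0 := by
    apply hK.measure_zero_of_nhdsWithin
    intro a ha
    obtain ⟨U, ⟨hUo, hU0⟩, haU⟩ := Set.mem_sUnion.1 (hKN ha)
    exact ⟨U, mem_nhdsWithin_of_mem_nhds (hUo.mem_nhds haU), hU0⟩
  rw [this] at hμK
  exact lt_irrefl _ hμK

end Pool.Helper535.HN
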