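import Pool.Agent.Helper535.HN.Defs

set_option autoImplicit false

open Topology Filter Set

namespace Pool.Helper535.HN

universe u



theorem select {X : Type u} [TopologicalSpace X] [CompactSpace X] [T2Space X] (z : X)
    (a : ℕ → X) (ha : ∀ n, a n ∈ ({z}ᶜ : Set X))
    (f : ({z}ᶜ : Set X) → ℝ) (hf : Continuous f)
    (hlim : Tendsto (fun n => f ⟨a n, ha n⟩) atTop atTop)
    (A : Set X) (hA : ∀ n, a n ∈ closure A) :
    ∃ b : ℕ → X, (∀ n, b n ∈ A) ∧ (∀ n, b n ≠ z) ∧ Tendsto b atTop (𝓝 z) := by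
  have hop : IsOpen ({z}ᶜ : Set X) := isOpen_compl_singleton
  have h1 : ∀ n, ∃ b : X, b ∈ A ∧ ∃ hb : b ∈ ({z}ᶜ : Set X), |f ⟨b, hb⟩ - f ⟨a n, ha n⟩| < 1 := by
    intro n
    have hU : IsOpen {y : ({z}ᶜ : Set X) | |f y - f ⟨a n, ha n⟩| < 1} :=
      isOpen_lt ((hf.sub continuous_const).abs) continuous_const
    have hV : IsOpen (Subtype.val '' {y : ({z}ᶜ : Set X) | |f y - f ⟨a n, ha n⟩| < 1}) :=
      hop.isOpenMap_subtype_val _ hU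
    have hmem : a n ∈ Subtype.val '' {y : ({z}ᶜ : Set X) | |f y - f ⟨a n, ha n⟩| < 1} :=
      ⟨⟨a n, ha n⟩, by simp, rfl⟩
    obtain ⟨b, hb1, hb2⟩ := mem_closure_iff.1 (hA n) _ hV hmem
    obtain ⟨y, hy, rfl⟩ := hb1
    exact ⟨y.1, hb2, y.2, hy⟩
  choose b hbA hbz hbf using h1
  refine ⟨b, hbA, fun n h => hbz n (by simpa using h), ?_⟩
  refine (isCompact_univ (X := X)).tendsto_nhds_of_unique_mapClusterPt (by simp) ?_
  intro y _ hy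
  by_contra hyz
  have hyc : y ∈ ({z}ᶜ : Set X) := by simpa using hyz
  have hU : IsOpen {w : ({z}ᶜ : Set X) | f w < f ⟨y, hyc⟩ + 1} :=
    isOpen_lt hf continuous_const
  have hV : IsOpen (Subtype.val '' {w : ({z}ᶜ : Set X) | f w < f ⟨y, hyc⟩ + 1}) :=
    hop.isOpenMap_subtype_val _ hU
  have hmem : y ∈ Subtype.val '' {w : ({z}ᶜ : Set X) | f w < f ⟨y, hyc⟩ + 1} :=
    ⟨⟨y, hyc⟩, by simp, rfl⟩
  have hfreq : ∃ᶠ n in atTop, b n ∈ Subtype.val '' {w : ({z}ᶜ : Set X) | f w < f ⟨y, hyc⟩ + 1} :=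
    hy.frequently (hV.mem_nhds hmem)
  have hev : ∀ᶠ n in atTop, f ⟨y, hyc⟩ + 2 ≤ f ⟨a n, ha n⟩ := hlim.eventually_ge_atTop _
  obtain ⟨n, ⟨w, hw, hwb⟩, hn⟩ := (hfreq.and_eventually hev).exists
  have hwe : w = ⟨b n, hbz n⟩ := Subtype.ext hwb
  have h2 := hbf n
  rw [← hwe] at h2
  have h3 := (abs_lt.1 h2).1
  have h4 : f w < f ⟨y, hyc⟩ + 1 := hw
  linarith

end Pool.Helper535.HN
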