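import Pool.Agent.Helper535.HN.Defs

set_option autoImplicit false

open Topology Filter Set

namespace Pool.Helper535.HN

universe u



theorem ordOpen {Y : Type u} [TopologicalSpace Y]
    (V : Set (Set Y)) (hV : ∀ g ∈ V, IsOpen g) (k : ℕ) :
    IsOpen {y : Y | ∃ T : Finset (Set Y), (↑T : Set (Set Y)) ⊆ V ∧ T.card = k ∧
      ∀ g ∈ T, y ∈ g} := by
  have h : {y : Y | ∃ T : Finset (Set Y), (↑T : Set (Set Y)) ⊆ V ∧ T.card = k ∧
      ∀ g ∈ T, y ∈ g} = ⋃ T ∈ {T : Finset (Set Y) | (↑T : Set (Set Y)) ⊆ V ∧ T.card = k},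
        ⋂ g ∈ T, g := by
    ext y
    simp only [mem_setOf_eq, mem_iUnion, mem_iInter, exists_prop, and_assoc]
  rw [h]
  refine isOpen_biUnion (fun T hT => ?_)
  exact isOpen_biInter_finset (fun g hg => hV g (hT.1 hg))

end Pool.Helper535.HN
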