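import Pool.Agent.Helper535.HN.Defs

set_option autoImplicit false

open Topology Filter Set

namespace Pool.Helper535.HN

universe u



theorem partFin {Y : Type u} [TopologicalSpace Y] (hY : CC (univ : Set Y))
    (V : Set (Set Y)) (hV : ∀ g ∈ V, IsOpen g) (k : ℕ) (F0 : Set Y) (hF0 : IsClosed F0)
    (hk : ∀ y ∈ F0, {g | g ∈ V ∧ y ∈ g}.Finite ∧ {g | g ∈ V ∧ y ∈ g}.ncard = k + 1) :
    ∃ G : Finset (Set Y), (↑G : Set (Set Y)) ⊆ V ∧ F0 ⊆ ⋃₀ (↑G : Set (Set Y)) := by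
  classical
  obtain ⟨T, hT⟩ : ∃ T : Y → Set (Set Y), ∀ y, T y = {g | g ∈ V ∧ y ∈ g} := ⟨_, fun _ => rfl⟩
  have hk' : ∀ y ∈ F0, (T y).Finite ∧ (T y).ncard = k + 1 := by
    intro y hy
    rw [hT]; exact hk y hy
  have hTm : ∀ y g, g ∈ T y ↔ (g ∈ V ∧ y ∈ g) := by
    intro y g
    rw [hT]; exact Iff.rfl
  have hfin : (T '' F0).Finite := by
    by_contra hinf
    have hinf' : (T '' F0).Infinite := hinf
    have e := hinf'.natEmbedding
    have hch : ∀ n : ℕ, ∃ y ∈ F0, T y = (e n : Set (Set Y)) := fun n => (e n).2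
    choose u hu hu' using hch
    obtain ⟨x, -, hx⟩ := hY u (fun n => mem_univ _)
    have hxF : x ∈ F0 := by
      by_contra hcon
      have h1 : ∀ᶠ y in 𝓝 x, y ∈ F0ᶜ := hF0.isOpen_compl.mem_nhds hcon
      obtain ⟨n, hn⟩ := (hx.frequently h1).exists
      exact hn (hu n)
    have hNopen : IsOpen (⋂₀ T x) := by
      refine (hk' x hxF).1.isOpen_sInter ?_
      intro g hg
      exact hV g ((hTm x g).1 hg).1
    have hxN : x ∈ ⋂₀ T x := by
      intro g hg
      exact ((hTm x g).1 hg).2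
    have hfr : ∃ᶠ n in atTop, u n ∈ ⋂₀ T x := hx.frequently (hNopen.mem_nhds hxN)
    rw [frequently_atTop] at hfr
    obtain ⟨i, -, hi⟩ := hfr 0
    obtain ⟨j, hij, hj⟩ := hfr (i + 1)
    have key : ∀ n, u n ∈ ⋂₀ T x → T x = T (u n) := by
      intro n hn
      refine Set.eq_of_subset_of_ncard_le ?_ ?_ (hk' (u n) (hu n)).1
      · intro g hg
        exact (hTm _ _).2 ⟨((hTm x g).1 hg).1, hn g hg⟩
      · rw [(hk' (u n) (hu n)).2, (hk' x hxF).2]
    have h3 : (e i : Set (Set Y)) = (e j : Set (Set Y)) := by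
      rw [← hu', ← hu', ← key i hi, ← key j hj]
    have h4 : i = j := e.injective (Subtype.ext h3)
    omega
  have hne : ∀ y ∈ F0, (T y).Nonempty := by
    intro y hy
    apply Set.nonempty_of_ncard_ne_zero
    rw [(hk' y hy).2]
    omega
  obtain ⟨c, hc⟩ : ∃ c : Set (Set Y) → Set Y, ∀ t : Set (Set Y), t.Nonempty → c t ∈ t := by
    refine ⟨fun t => if h : t.Nonempty then h.some else ∅, ?_⟩
    intro t ht
    simp only [ht, dif_pos]
    exact ht.some_mem
  refine ⟨hfin.toFinset.image c, ?_, ?_⟩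
  · intro g hg
    rw [Finset.mem_coe, Finset.mem_image] at hg
    obtain ⟨t, ht, rfl⟩ := hg
    rw [Set.Finite.mem_toFinset] at ht
    obtain ⟨y, hy, rfl⟩ := ht
    exact ((hTm y _).1 (hc _ (hne y hy))).1
  · intro y hy
    refine ⟨c (T y), ?_, ((hTm y _).1 (hc _ (hne y hy))).2⟩
    rw [Finset.mem_coe, Finset.mem_image]
    refine ⟨T y, ?_, rfl⟩
    rw [Set.Finite.mem_toFinset]
    exact ⟨y, hy, rfl⟩

end Pool.Helper535.HN
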