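import Pool.Agent.Helper535.HN.Defs
import Pool.Agent.Helper535.HN.P_exUlt
import Pool.Agent.Helper535.HN.P_nonemp
import Pool.Agent.Helper535.HN.P_bigCountUnion
import Pool.Agent.Helper535.HN.P_bigBorel
import Pool.Agent.Helper535.HN.P_notBoth
import Pool.Agent.Helper535.HN.P_partFin
import Pool.Agent.Helper535.HN.P_ordOpen

set_option autoImplicit false

open Topology Filter Set

namespace Pool.Helper535.HN

universe u



theorem wtrCompact {Y : Type u} [TopologicalSpace Y] (hY : CC (univ : Set Y))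
    (hW : ∀ 𝒰 : Set (Set Y), (∀ w ∈ 𝒰, IsOpen w) → ⋃₀ 𝒰 = Set.univ →
        ∃ G : ℕ → Set (Set Y),
          (∀ n, ∀ g ∈ G n, IsOpen g ∧ ∃ w ∈ 𝒰, g ⊆ w) ∧
          ∀ y : Y, ∃ n, (∃ g ∈ G n, y ∈ g) ∧ {g | g ∈ G n ∧ y ∈ g}.Finite) :
    IsCompact (univ : Set Y) := by
  classical
  by_contra hnc
  obtain ⟨F, hF, hFe⟩ := exUlt hnc
  obtain ⟨G, hG, hGy⟩ := hW {w | ∃ C ∈ F, w = Cᶜ} (by
      rintro w ⟨C, hC, rfl⟩
      exact (hF.1.1 C hC).isOpen_compl) (by
      rw [Set.eq_univ_iff_forall]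
      intro y
      have : y ∉ ⋂₀ F := by rw [hFe]; exact Set.notMem_empty y
      rw [Set.mem_sInter] at this
      push Not at this
      obtain ⟨C, hC, hy⟩ := this
      exact ⟨Cᶜ, ⟨C, hC, rfl⟩, hy⟩)
  obtain ⟨O, hO⟩ : ∃ O : ℕ → ℕ → Set Y, ∀ n k, O n k = {y : Y | ∃ T : Finset (Set Y),
      (↑T : Set (Set Y)) ⊆ G n ∧ T.card = k ∧ ∀ g ∈ T, y ∈ g} := ⟨_, fun _ _ => rfl⟩
  have hOopen : ∀ n k, IsOpen (O n k) := by
    intro n k
    rw [hO]
    exact ordOpen (G n) (fun g hg => (hG n g hg).1) k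
  have hfwd : ∀ n k y, y ∈ O n (k+1) \ O n (k+2) →
      {g | g ∈ G n ∧ y ∈ g}.Finite ∧ {g | g ∈ G n ∧ y ∈ g}.ncard = k + 1 := by
    rintro n k y ⟨h1, h2⟩
    rw [hO] at h1 h2
    obtain ⟨T, hT, hTc, hTy⟩ := h1
    have hno : ∀ T' : Finset (Set Y), (↑T' : Set (Set Y)) ⊆ {g | g ∈ G n ∧ y ∈ g} → T'.card ≠ k + 2 := by
      intro T' hT' hc
      exact h2 ⟨T', fun g hg => (hT' hg).1, hc, fun g hg => (hT' hg).2⟩
    have hfin : {g | g ∈ G n ∧ y ∈ g}.Finite := by
      by_contra hinf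
      obtain ⟨T', hT', hc⟩ := Set.Infinite.exists_subset_card_eq hinf (k+2)
      exact hno T' hT' hc
    refine ⟨hfin, ?_⟩
    rw [Set.ncard_eq_toFinset_card _ hfin]
    apply le_antisymm
    · by_contra hlt
      push Not at hlt
      obtain ⟨T', hT', hc⟩ := Finset.exists_subset_card_eq (s := hfin.toFinset) (n := k+2) (by omega)
      refine hno T' (fun g hg => ?_) hc
      have := hT' hg
      rwa [Set.Finite.mem_toFinset] at this
    · rw [← hTc]
      apply Finset.card_le_card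
      intro g hg
      rw [Set.Finite.mem_toFinset]
      exact ⟨hT hg, hTy g hg⟩
  have hcov : ∀ y : Y, ∃ n k, y ∈ O n (k+1) \ O n (k+2) := by
    intro y
    obtain ⟨n, ⟨g, hg, hyg⟩, hfin⟩ := hGy y
    refine ⟨n, hfin.toFinset.card - 1, ?_⟩
    have hpos : 0 < hfin.toFinset.card := by
      apply Finset.card_pos.mpr
      exact ⟨g, by rw [Set.Finite.mem_toFinset]; exact ⟨hg, hyg⟩⟩
    refine ⟨?_, ?_⟩
    · rw [hO]
      refine ⟨hfin.toFinset, fun g hg => ?_, by omega, fun g hg => ?_⟩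
      · rw [Set.Finite.coe_toFinset] at hg; exact hg.1
      · rw [Set.Finite.mem_toFinset] at hg; exact hg.2
    · rw [hO]
      rintro ⟨T, hT, hTc, hTy⟩
      have : T ⊆ hfin.toFinset := by
        intro g hg
        rw [Set.Finite.mem_toFinset]
        exact ⟨hT hg, hTy g hg⟩
      have := Finset.card_le_card this
      omega
  by_cases hbig : ∃ n k, Big F (O n (k+1) \ O n (k+2))
  · obtain ⟨n, k, C0, hC0, hsub⟩ := hbig
    obtain ⟨G', hG', hcov'⟩ := partFin hY (G n) (fun g hg => (hG n g hg).1) k C0 (hF.1.1 C0 hC0)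
      (fun y hy => hfwd n k y (hsub hy))
    have hch : ∀ g : Set Y, ∃ C : Set Y, g ∈ G' → (C ∈ F ∧ g ⊆ Cᶜ) := by
      intro g
      by_cases hg : g ∈ G'
      · obtain ⟨_, w, ⟨C, hC, rfl⟩, hgw⟩ := hG n g (hG' hg)
        exact ⟨C, fun _ => ⟨hC, hgw⟩⟩
      · exact ⟨∅, fun h => absurd h hg⟩
    choose c hc using hch
    obtain ⟨y, hy⟩ := hF.1.2 (insert C0 (G'.image c)) (by
      intro D hD
      rw [Finset.coe_insert, Finset.coe_image] at hD
      rcases hD with rfl | ⟨g, hg, rfl⟩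
      · exact hC0
      · exact (hc g hg).1)
    rw [Set.mem_sInter] at hy
    have hy0 : y ∈ C0 := hy C0 (by simp)
    obtain ⟨g, hg, hyg⟩ := hcov' hy0
    have hyc : y ∈ c g := hy (c g) (by
      rw [Finset.coe_insert, Finset.coe_image]
      exact Or.inr ⟨g, hg, rfl⟩)
    exact (hc g hg).2 hyg hyc
  · push Not at hbig
    have hall : ∀ n k, Big F (O n (k+1) \ O n (k+2))ᶜ := by
      intro n k
      rcases bigBorel hY F hF (O n (k+1) \ O n (k+2)) (by
        letI : MeasurableSpace Y := borel Y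
        haveI : BorelSpace Y := ⟨rfl⟩
        exact (hOopen n (k+1)).measurableSet.diff (hOopen n (k+2)).measurableSet) with h | h
      · exact absurd h (hbig n k)
      · exact h
    obtain ⟨C, hC, hCs⟩ := bigCountUnion hY F hF
      (fun m => O m.unpair.1 (m.unpair.2+1) \ O m.unpair.1 (m.unpair.2+2)) (fun m => hall _ _)
    obtain ⟨y, hy⟩ := nonemp F hF C hC
    apply hCs hy
    obtain ⟨n, k, hnk⟩ := hcov y
    rw [Set.mem_iUnion]
    refine ⟨Nat.pair n k, ?_⟩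
    simp only [Nat.unpair_pair]
    exact hnk

end Pool.Helper535.HN
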