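import Pool.Agent.Helper535.HN.P_exFun
import Pool.Agent.Helper535.HN.P_select
import Pool.Agent.Helper535.HN.P_infSeq
import Pool.Agent.Helper535.HN.P_finSeq
import Pool.Agent.Helper535.HN.P_exUlt
import Pool.Agent.Helper535.HN.P_countInter
import Pool.Agent.Helper535.HN.P_nonemp
import Pool.Agent.Helper535.HN.P_ccSub
import Pool.Agent.Helper535.HN.P_ncSub
import Pool.Agent.Helper535.HN.P_radonC
import Pool.Agent.Helper535.HN.P_wtrCompact

set_option autoImplicit false

open Topology Filter Set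

universe u

namespace Pool.Helper535.HN

/-- every sequence converging to a point `z` from outside `z` is not relatively pseudocompact in
the complement of `z`. -/
def UnbSeq (X : Type u) [TopologicalSpace X] : Prop :=
  ∀ (z : X) (a : ℕ → X) (ha : ∀ n, a n ∈ ({z}ᶜ : Set X)), Tendsto a atTop (𝓝 z) →
    ∃ f : ({z}ᶜ : Set X) → ℝ, Continuous f ∧ ∀ M : ℝ, ∃ n, M < f ⟨a n, ha n⟩

theorem unb_of_normal {X : Type u} [TopologicalSpace X] [T2Space X]
    (hN : ∀ z : X, NormalSpace ({z}ᶜ : Set X)) : UnbSeq X := by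
  intro z a ha hz
  obtain ⟨f, hf, hlim⟩ := exFun z (hN z) a ha hz
  refine ⟨f, hf, fun M => ?_⟩
  exact ((tendsto_atTop.1 hlim (M + 1)).mono fun n hn => by linarith).exists

theorem selU {X : Type u} [TopologicalSpace X] [CompactSpace X] [T2Space X] (hU : UnbSeq X)
    (B : Set X) (p : X) (w : ℕ → X) (hw : ∀ n, w n ∈ closure B)
    (hwp : ∀ n, w n ∈ ({p}ᶜ : Set X)) (hlim : Tendsto w atTop (𝓝 p)) :
    ∃ b : ℕ → X, (∀ n, b n ∈ B) ∧ (∀ n, b n ≠ p) ∧ Tendsto b atTop (𝓝 p) := by
  obtain ⟨f, hf, hunb⟩ := hU p w hwp hlim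
  -- frequently large
  have hfreq : ∀ k : ℕ, ∃ᶠ n in atTop, (k : ℝ) < f ⟨w n, hwp n⟩ := by
    intro k
    rw [frequently_atTop]
    intro N
    -- bound on the first terms
    obtain ⟨M, hM⟩ : ∃ M : ℝ, ∀ n < N, f ⟨w n, hwp n⟩ ≤ M := by
      obtain ⟨M, hM⟩ := ((Finset.range N).image fun n => f ⟨w n, hwp n⟩).exists_le
      exact ⟨M, fun n hn => hM _ (Finset.mem_image_of_mem _ (Finset.mem_range.2 hn))⟩
    obtain ⟨n, hn⟩ := hunb (max M k)
    refine ⟨n, ?_, lt_of_le_of_lt (le_max_right _ _) hn⟩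
    by_contra hlt
    push Not at hlt
    have := hM n hlt
    exact absurd (lt_of_le_of_lt (le_max_left M (k : ℝ)) hn) (not_lt.2 this)
  obtain ⟨φ, hφ, hφ'⟩ := extraction_forall_of_frequently hfreq
  have hlim' : Tendsto (fun k => f ⟨w (φ k), hwp (φ k)⟩) atTop atTop := by
    refine tendsto_atTop_mono (fun k => (hφ' k).le) tendsto_natCast_atTop_atTop
  exact select p (w ∘ φ) (fun k => hwp (φ k)) f hf hlim' B (fun k => hw (φ k))

theorem ccSeqU {X : Type u} [TopologicalSpace X] [CompactSpace X] [T2Space X]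
    (hC : CClosed X) (hU : UnbSeq X) (A : Set X) : CC (seqClosure A) := by
  intro a ha
  by_contra hcon
  push Not at hcon
  have hL : IsClosed {x | MapClusterPt x atTop a} := isClosed_setOf_clusterPt
  have hsub : seqClosure A ⊆ closure A := seqClosure_subset_closure
  by_cases hfin : {x | MapClusterPt x atTop a}.Finite
  · obtain ⟨p, hp, φ, hφ, hlim⟩ := finSeq a hfin
    have hpA : p ∉ seqClosure A := fun h => hcon p h hp
    obtain ⟨b, hb1, hb2, hb3⟩ := selU hU A p (a ∘ φ) (fun n => hsub (ha (φ n))) (by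
      intro n h
      rw [Set.mem_singleton_iff] at h
      apply hpA
      rw [← h]
      exact ha (φ n)) hlim
    exact hpA ⟨b, hb1, hb3⟩
  · obtain ⟨p, hpL, v, hv1, hv2, hv3⟩ := infSeq hC _ hL hfin
    have hpA : p ∉ seqClosure A := fun h => hcon p h hpL
    obtain ⟨b, hb1, hb2, hb3⟩ := selU hU (range a) p v (by
      intro n
      rw [mem_closure_iff_clusterPt]
      have h1 : ClusterPt (v n) (map a atTop) := hv1 n
      refine h1.mono ?_
      rw [Filter.le_principal_iff]
      exact range_mem_map) hv2 hv3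
    obtain ⟨b', hb1', hb2', hb3'⟩ := selU hU A p b (by
      intro n
      obtain ⟨k, hk⟩ := hb1 n
      rw [← hk]
      exact hsub (ha k)) (fun n => hb2 n) hb3
    exact hpA ⟨b', hb1', hb3'⟩

/-- A compact Hausdorff space whose countably compact subsets are closed and in which no
nontrivial convergent sequence is relatively pseudocompact in the complement of its limit is
Fréchet–Urysohn. -/
theorem frechetU {X : Type u} [TopologicalSpace X] [CompactSpace X] [T2Space X]
    (hC : CClosed X) (hU : UnbSeq X) : FrechetUrysohnSpace X := by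
  refine ⟨fun A => ?_⟩
  exact closure_minimal subset_seqClosure (hC _ (ccSeqU hC hU A))

/-- countably complete closed ultrafilters exist on noncompact countably compact subspaces -/
theorem alphaC {X : Type u} [TopologicalSpace X] [T2Space X]
    (hα : ∀ S : Set X, ∀ F : Set (Set S), ClUlt F →
      (∀ G ⊆ F, G.Countable → (⋂₀ G).Nonempty) → (⋂₀ F).Nonempty) : CClosed X := by
  intro S hS
  by_contra hcl
  obtain ⟨F, hF, hFe⟩ := exUlt (ncSub S hcl)
  have h := hα S F hF (by
    intro G hG hGc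
    rcases G.eq_empty_or_nonempty with rfl | hne
    · have := hF.1.2 ∅ (by simp)
      simpa using this
    · obtain ⟨g, hg⟩ := hGc.exists_eq_range hne
      have h1 : (⋂ n, g n) ∈ F := countInter (ccSub S hS) F hF g (fun n => hG (by rw [hg]; exact mem_range_self n))
      have h2 := nonemp F hF _ h1
      rw [hg, sInter_range]
      exact h2)
  rw [hFe] at h
  exact Set.not_nonempty_empty h

theorem wtrC {X : Type u} [TopologicalSpace X] [T2Space X]
    (hW : ∀ Y : Set X, ∀ 𝒰 : Set (Set Y), (∀ w ∈ 𝒰, IsOpen w) → ⋃₀ 𝒰 = Set.univ →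
        ∃ G : ℕ → Set (Set Y),
          (∀ n, ∀ g ∈ G n, IsOpen g ∧ ∃ w ∈ 𝒰, g ⊆ w) ∧
          ∀ y : Y, ∃ n, (∃ g ∈ G n, y ∈ g) ∧ {g | g ∈ G n ∧ y ∈ g}.Finite) : CClosed X := by
  intro S hS
  by_contra hcl
  exact ncSub S hcl (wtrCompact (ccSub S hS) (hW S))

end Pool.Helper535.HN
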