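import Pool.Agent.Helper535.HN.Defs

set_option autoImplicit false

open Topology Filter Set

namespace Pool.Helper535.HN

universe u



theorem exFun_lf {X : Type u} [TopologicalSpace X] [T2Space X] (z : X)
    (a : ℕ → X) (ha : ∀ n, a n ∈ ({z}ᶜ : Set X)) (hz : Tendsto a atTop (𝓝 z)) :
    LocallyFinite (fun n => ({⟨a n, ha n⟩} : Set ({z}ᶜ : Set X))) := by
  intro y
  have hne : (y : X) ≠ z := y.2
  obtain ⟨U, V, hU, hV, hyU, hzV, hd⟩ := t2_separation hne
  refine ⟨Subtype.val ⁻¹' U, (hU.preimage continuous_subtype_val).mem_nhds hyU, ?_⟩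
  obtain ⟨N, hN⟩ := eventually_atTop.1 (hz.eventually (hV.mem_nhds hzV))
  apply (Set.finite_Iio N).subset
  rintro n ⟨w, hw1, hw2⟩
  rw [Set.mem_singleton_iff] at hw1
  subst hw1
  by_contra hcon
  have h1 : a n ∈ V := hN n (not_lt.1 hcon)
  exact Set.disjoint_left.1 hd hw2 h1

theorem exFun_closed {X : Type u} [TopologicalSpace X] [T2Space X] (z : X)
    (a : ℕ → X) (ha : ∀ n, a n ∈ ({z}ᶜ : Set X)) (hz : Tendsto a atTop (𝓝 z))
    (S : Set ({z}ᶜ : Set X)) (hS : S ⊆ Set.range (fun n => (⟨a n, ha n⟩ : ({z}ᶜ : Set X)))) :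
    IsClosed S := by
  have h1 : S = ⋃ n : {n : ℕ // (⟨a n, ha n⟩ : ({z}ᶜ : Set X)) ∈ S},
      ({⟨a n, ha n⟩} : Set ({z}ᶜ : Set X)) := by
    ext w
    simp only [Set.mem_iUnion, Set.mem_singleton_iff]
    constructor
    · intro hw
      obtain ⟨n, hn⟩ := hS hw
      simp only at hn
      exact ⟨⟨n, by rw [hn]; exact hw⟩, hn.symm⟩
    · rintro ⟨⟨n, hn⟩, rfl⟩
      exact hn
  rw [h1]
  apply LocallyFinite.isClosed_iUnion
  · exact (exFun_lf z a ha hz).comp_injective Subtype.val_injective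
  · intro n
    exact isClosed_singleton

theorem exFun {X : Type u} [TopologicalSpace X] [T2Space X] (z : X)
    (hN : NormalSpace ({z}ᶜ : Set X)) (a : ℕ → X) (ha : ∀ n, a n ∈ ({z}ᶜ : Set X))
    (hz : Tendsto a atTop (𝓝 z)) :
    ∃ f : ({z}ᶜ : Set X) → ℝ, Continuous f ∧
      Tendsto (fun n => f ⟨a n, ha n⟩) atTop atTop := by
  classical
  set b : ℕ → ({z}ᶜ : Set X) := fun n => ⟨a n, ha n⟩ with hb
  set Z : Set ({z}ᶜ : Set X) := Set.range b with hZ
  have hZc : IsClosed Z := exFun_closed z a ha hz Z le_rfl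
  have hdisc : DiscreteTopology Z := by
    rw [discreteTopology_iff_forall_isClosed]
    intro s
    have h1 : IsClosed (Subtype.val '' s : Set ({z}ᶜ : Set X)) := by
      apply exFun_closed z a ha hz
      rintro _ ⟨w, _, rfl⟩
      exact w.2
    have h2 : s = Subtype.val ⁻¹' (Subtype.val '' s : Set ({z}ᶜ : Set X)) :=
      (Set.preimage_image_eq s Subtype.val_injective).symm
    rw [h2]
    exact h1.preimage continuous_subtype_val
  let g : C(Z, ℝ) := ⟨fun w => ((Nat.find w.2 : ℕ) : ℝ), continuous_of_discreteTopology⟩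
  obtain ⟨f, hf⟩ := ContinuousMap.exists_restrict_eq hZc g
  refine ⟨f, f.continuous, ?_⟩
  have hval : ∀ n, f (b n) = ((Nat.find (⟨n, rfl⟩ : ∃ k, b k = b n) : ℕ) : ℝ) := by
    intro n
    exact congrArg (fun F : C(Z, ℝ) => F ⟨b n, n, rfl⟩) hf
  rw [tendsto_atTop]
  intro r
  obtain ⟨M, hM⟩ := exists_nat_gt r
  have h1 : ∀ k ∈ Finset.range M, ∀ᶠ n in atTop, b n ≠ b k := by
    intro k _
    have hk : ({a k}ᶜ : Set X) ∈ 𝓝 z := isOpen_compl_singleton.mem_nhds (fun h => ha k h.symm)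
    filter_upwards [hz.eventually hk] with n hn hbn
    exact hn (congrArg Subtype.val hbn)
  have h2 : ∀ᶠ n in atTop, ∀ k ∈ Finset.range M, b n ≠ b k :=
    (Filter.eventually_all_finset (Finset.range M)).2 h1
  filter_upwards [h2] with n hn
  have h3 : M ≤ Nat.find (⟨n, rfl⟩ : ∃ k, b k = b n) := by
    by_contra hcon
    have hlt := not_le.1 hcon
    exact hn _ (Finset.mem_range.2 hlt) (Nat.find_spec (⟨n, rfl⟩ : ∃ k, b k = b n)).symm
  show r ≤ f (b n)
  rw [hval n]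
  have : (M : ℝ) ≤ ((Nat.find (⟨n, rfl⟩ : ∃ k, b k = b n) : ℕ) : ℝ) := by exact_mod_cast h3
  linarith

end Pool.Helper535.HN
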